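import Pool.Agent.W657.TG.Fin

/-!
# A separable C*-algebra which is not a twisted groupoid C*-algebra

Let `T` be the unilateral shift on `ℓ²(ℕ)`. The non-unital C*-algebra generated by `T - 1` (an
extension of `C₀(ℝ)` by the compact operators, the Wiener-Hopf algebra) is separable, and it is not
isomorphic to the reduced C*-algebra `C_r^*(G, Σ)` of any twist `Σ` over any locally compact
Hausdorff étale groupoid `G`.

The definitions are in `Pool.Agent.W657.TG.Gpd` (topological groupoids, twists, `C_c(G, Σ)`) and
`Pool.Agent.W657.TG.Fin` (the operators on `ℓ²(X)`, the regular representation and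
`C_r^*(G, Σ)`). Every `f` in `C_c(G, Σ)` has a bounded regular operator `λ(f)`, see
`Pool.Agent.W657.TG.Twist.exists_regular`.
-/

set_option autoImplicit false

namespace Pool.Agent.Results.MP_80e67e_an.WienerHopf

open Pool.Agent.W657.TG

universe u

/-- There is a separable C*-algebra `A`, namely the C*-algebra of operators on `ℓ²(ℕ)` generated by
`T - 1`, with `T` the unilateral shift, such that for every locally compact Hausdorff étale
groupoid `G` and every twist `Σ` over `G`, the C*-algebra `A` is not isomorphic to
`C_r^*(G, Σ)`. -/
theorem result :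
    ∃ (A : Type) (_ : NonUnitalCStarAlgebra A),
      (∃ T : Hil ℕ →L[ℂ] Hil ℕ, IsShift T ∧ IsoTo A (Gen (T - 1))) ∧
      TopologicalSpace.SeparableSpace A ∧
      ∀ (X G S : Type u) [TopologicalSpace X] [TopologicalSpace G] [TopologicalSpace S]
        [LocallyCompactSpace G] [T2Space G] [LocallyCompactSpace S] [T2Space S]
        (𝒢 : TopGpd X G) (tw : Twist 𝒢 S), 𝒢.Etale → ¬ IsoTo A tw.cstar :=
  final

end Pool.Agent.Results.MP_80e67e_an.WienerHopf
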